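import Pool.Agent.L0h13.SD.Stm

/-!
# Families of operators on words

Definitions.
-/

set_option autoImplicit false

namespace Pool.Agent.L0h13.NC

universe u

open Equiv Module Pool.Agent.L0h13.SD

section ops

variable {K : Type*} [Field K] {r N : ℕ}

/-- The sign of a word. -/
noncomputable def sgw (K : Type*) [Field K] (m : ℕ) {r N : ℕ} (w : Fin N → Fin r) : K :=
  ∏ i, (-1 : K) ^ par m (w i)

/-- The operator `a ⊗ 1`: `a` acts on all letters but the last one. -/
def extW (a : Module.End K ((Fin N → Fin r) → K)) :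
    Module.End K ((Fin (N + 1) → Fin r) → K) where
  toFun F := fun w => a (fun v => F (Fin.snoc v (w (Fin.last N)))) fun i => w i.castSucc
  map_add' F G := by
    funext w
    exact congrFun (map_add a (fun v => F (Fin.snoc v (w (Fin.last N))))
      fun v => G (Fin.snoc v (w (Fin.last N)))) _
  map_smul' c F := by
    funext w
    exact congrFun (map_smul a c fun v => F (Fin.snoc v (w (Fin.last N)))) _

/-- The operator `1 ⊗ a`: `a` acts on the last letter. -/
def lstW (N : ℕ) (a : Module.End K ((Fin 1 → Fin r) → K)) :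
    Module.End K ((Fin (N + 1) → Fin r) → K) where
  toFun F := fun w => a (fun v => F (Fin.snoc (fun i => w i.castSucc) (v 0))) fun _ => w (Fin.last N)
  map_add' F G := by
    funext w
    exact congrFun (map_add a (fun v => F (Fin.snoc (fun i => w i.castSucc) (v 0)))
      fun v => G (Fin.snoc (fun i => w i.castSucc) (v 0))) _
  map_smul' c F := by
    funext w
    exact congrFun (map_smul a c fun v => F (Fin.snoc (fun i => w i.castSucc) (v 0))) _

/-- The supertrace. -/
noncomputable def strW (m : ℕ) (a : Module.End K ((Fin N → Fin r) → K)) : K :=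
  ∑ w : Fin N → Fin r, sgw K m w * a (Pi.single w 1) w

end ops

/-- The superdimension. -/
noncomputable def sdim (K : Type*) [Field K] (m r : ℕ) : K := ∑ a : Fin r, (-1 : K) ^ par m a

/-- A family of algebras of operators on words, with signed permutations, external products with the
identity, and a supertrace which is symmetric on them. -/
structure Fam (K : Type u) [Field K] (m r : ℕ) where
  /-- the operators -/
  A : ∀ N, Submodule K (Module.End K ((Fin N → Fin r) → K))
  mul : ∀ {N : ℕ} {a b : Module.End K ((Fin N → Fin r) → K)}, a ∈ A N → b ∈ A N → a * b ∈ A N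
  act : ∀ {N : ℕ} (σ : Perm (Fin N)), act K m σ ∈ A N
  ext : ∀ {N : ℕ} {a : Module.End K ((Fin N → Fin r) → K)}, a ∈ A N → extW a ∈ A (N + 1)
  comm : ∀ {N : ℕ} {a b : Module.End K ((Fin N → Fin r) → K)}, a ∈ A N → b ∈ A N →
    strW m (a * b) = strW m (b * a)
  radExt : ∀ {N : ℕ} {a : Module.End K ((Fin N → Fin r) → K)}, a ∈ A N →
    (∀ b ∈ A N, strW m (a * b) = 0) → ∀ b ∈ A (N + 1), strW m (extW a * b) = 0
  lst : ∀ (N : ℕ) {a : Module.End K ((Fin 1 → Fin r) → K)}, a ∈ A 1 → lstW N a ∈ A (N + 1)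
  radLst : ∀ (N : ℕ) {a : Module.End K ((Fin 1 → Fin r) → K)}, a ∈ A 1 →
    (∀ b ∈ A 1, strW m (a * b) = 0) → ∀ b ∈ A (N + 1), strW m (lstW N a * b) = 0

namespace Fam

variable {K : Type u} [Field K] {m r : ℕ} (F : Fam K m r)

lemma strW_add_mul {N : ℕ} (a b c : Module.End K ((Fin N → Fin r) → K)) :
    strW m ((a + b) * c) = strW m (a * c) + strW m (b * c) := by
  rw [strW, strW, strW, ← Finset.sum_add_distrib]
  refine Finset.sum_congr rfl fun w _ => ?_
  rw [add_mul, LinearMap.add_apply, Pi.add_apply, mul_add]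

lemma strW_smul_mul {N : ℕ} (x : K) (a c : Module.End K ((Fin N → Fin r) → K)) :
    strW m ((x • a) * c) = x * strW m (a * c) := by
  rw [strW, strW, Finset.mul_sum]
  refine Finset.sum_congr rfl fun w _ => ?_
  rw [smul_mul_assoc, LinearMap.smul_apply, Pi.smul_apply, smul_eq_mul]
  ring

/-- The numerically trivial operators. -/
noncomputable def rad (N : ℕ) : Submodule K (Module.End K ((Fin N → Fin r) → K)) where
  carrier := {a | a ∈ F.A N ∧ ∀ b ∈ F.A N, strW m (a * b) = 0}
  zero_mem' := ⟨Submodule.zero_mem _, fun b _ => by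
    rw [zero_mul, strW]
    exact Finset.sum_eq_zero fun w _ => by rw [LinearMap.zero_apply, Pi.zero_apply, mul_zero]⟩
  add_mem' := fun {x y} hx hy => ⟨Submodule.add_mem _ hx.1 hy.1, fun b hb => by
    rw [strW_add_mul, hx.2 b hb, hy.2 b hb, add_zero]⟩
  smul_mem' := fun c x hx => ⟨Submodule.smul_mem _ _ hx.1, fun b hb => by
    rw [strW_smul_mul, hx.2 b hb, mul_zero]⟩

lemma mem_rad {N : ℕ} {a : Module.End K ((Fin N → Fin r) → K)} :
    a ∈ F.rad N ↔ a ∈ F.A N ∧ ∀ b ∈ F.A N, strW m (a * b) = 0 := Iff.rfl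

/-- The dimension of the operators modulo the numerically trivial ones. -/
noncomputable def rk (N : ℕ) : ℕ := finrank K ((F.A N).map (F.rad N).mkQ)

end Fam

/-! ### Statements of the generic modules

Module `X` proves `theorem t_X : S_X` (or with the given hypotheses, `(h : S_Y.{u})`), in the file
`Pool/Agent/L0h13/NC/X.lean`, namespace `Pool.Agent.L0h13.NC`. -/

/-- WRD. Words: external products with the identity and partial traces. Compare
`Pool/Agent/L0h13/SD/GeoB.lean` (`str_ptr`, `rho_dn`, `str_ext_one`, `str_ext_swap`, `eq_dn`,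
`eq_dn_swap`): the same proofs with `Pi.single w 1` in place of `wb e n w`. Hypotheses
S_EPS, S_SWP, S_RES. -/
def S_WRD : Prop := ∀ (K : Type u) [Field K] (m r N : ℕ),
  (∀ σ : Perm (Fin N), extW (act K m (r := r) σ) = act K m (dn σ)) ∧
  (∀ y : GA K N, extW (op K m r y) = op K m r (dnA y)) ∧
  (∀ a b : Module.End K ((Fin N → Fin r) → K), extW (a * b) = extW a * extW b) ∧
  ∀ (y : GA K (N + 1)) (b : Module.End K ((Fin N → Fin r) → K)),
    strW m (op K m r (ptr (sdim K m r) y) * b) = strW m (op K m r y * extW b)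

/-- TIF. The numerically trivial combinations of permutations form a tensor ideal. Hypotheses S_WRD,
S_OPM. (For `zero`: `A 0` contains `1 = act 1` and all operators on the words of length `0` are scalars.)
Compare `tideal_JW` in `SD/GeoC.lean`. -/
def S_TIF : Prop := ∀ (K : Type u) [Field K] (m r : ℕ) (F : Fam K m r),
  TIdeal (sdim K m r) fun N => (F.rad N).comap (op K m r)

/-- SUP. Hypotheses S_TIF, S_BRL, S_BRR, S_PRM, S_TI. Compare `exists_super`, `sum_parity` in
`SD/GeoC.lean`. -/
def S_SUP : Prop := ∀ (K : Type u) [Field K] [CharZero K] (m n : ℕ) (F : Fam K m (m + n)),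
  ∃ d ≤ min m n, ∀ (N : ℕ) (y : GA K N),
    op K m (m + n) y ∈ F.rad N ↔ op K (m - d) ((m - d) + (n - d)) y = 0

/-- GRW. Growth. Hypothesis S_EPS (and S_OPM). Compare `finrank_quot`, `growth_bounds`, `actHom`,
`le_finrank_op`, `finrank_op_le` in `SD/GeoD.lean` and `exists_idem` in `GP/Alg.lean` (with the basis
`Pi.basisFun` and `actHom`). -/
def S_GRW : Prop := ∀ (K : Type u) [Field K] [CharZero K] (m r m' r' : ℕ) (F : Fam K m r),
  (∀ (N : ℕ) (y : GA K N), op K m r y ∈ F.rad N ↔ op K m' r' y = 0) →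
  ∀ N : ℕ, (r' ^ N) ^ 2 ≤ (N + 1) ^ (r' ^ 2) * F.rk N ∧
    ∃ f ∈ F.rad N, f * f = f ∧
      finrank K (LinearMap.range (1 - f)) ^ 2 ≤ (N + 1) ^ (r ^ 2) * (r' ^ N) ^ 2

/-- RKB. `a` and `(1 - f) a (1 - f)` are congruent modulo the radical. Hypothesis S_EPS (for
`1 = act 1 ∈ A N`). -/
def S_RKB : Prop := ∀ (K : Type u) [Field K] (m r : ℕ) (F : Fam K m r) (N : ℕ)
  (f : Module.End K ((Fin N → Fin r) → K)), f ∈ F.rad N → f * f = f →
  F.rk N ≤ finrank K (LinearMap.range (1 - f)) ^ 2

/-- PIN. Powers of a numerically trivial idempotent operator on the letters. Take `p_0 = 1`,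
`p_(N+1) = extW p_N * lstW N (1 - e)`, `f = 1 - p_N`; the rank of an idempotent is its trace
(`LinearMap.IsIdempotentElem`... in characteristic zero) and the trace of `extW a * lstW N c` is the
product of the traces. Hypothesis S_EPS (for `1 ∈ A N`). -/
def S_PIN : Prop := ∀ (K : Type u) [Field K] [CharZero K] (m r : ℕ) (F : Fam K m r)
  (e : Module.End K ((Fin 1 → Fin r) → K)), e ∈ F.rad 1 → e * e = e →
  ∀ N : ℕ, ∃ f ∈ F.rad N, f * f = f ∧
    finrank K (LinearMap.range (1 - f)) = finrank K (LinearMap.range (1 - e)) ^ N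

/-- NIL. Nilpotence and growth. Hypotheses S_GRW, S_RKB, S_PIN. (a) `f` is nilpotent and idempotent,
so `f = 0`. (b) if `a ∈ rad 1` is not nilpotent then there is an idempotent `e ≠ 0` in `rad 1`, a
polynomial in `a` without constant term times `a` (`exists_fit`, `nil_of_perp` in `N64/AF/Bb.lean`), so
`rk N ≤ (r - 1)^(2 N)`, a contradiction for large `N` (`poly_exp` in `GP/Main.lean`, `le_of_poly_exp` in
`SD/Main.lean`). -/
def S_NIL : Prop := ∀ (K : Type u) [Field K] [CharZero K] (m r m' r' : ℕ) (F : Fam K m r),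
  (∀ (N : ℕ) (y : GA K N), op K m r y ∈ F.rad N ↔ op K m' r' y = 0) →
  ((∀ (N : ℕ), ∀ a ∈ F.rad N, IsNilpotent a) → r ≤ r') ∧
  (r' = r → ∀ a ∈ F.rad 1, IsNilpotent a)

end Pool.Agent.L0h13.NC
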