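import Pool.Agent.L0h13.NC.Base
import Pool.Agent.N180.NCD.Fam
import Pool.Agent.N64.AF.Ba

/-!
# Statements of the modules about realisations of rigid categories

Module `X` proves `theorem t_X : S_X` (or with the given hypotheses `(h : S_Y.{u, v, w, t})`), in the
file `Pool/Agent/L0h13/NC/X.lean`, namespace `Pool.Agent.L0h13.NC`. The library has `mt R x y` (the product
`H(X) × H(Y) → H(X ⊗ Y)`), `elt R T n x` (the element `x_1 ⊗ ⋯ ⊗ x_n` of `H(T^n)`), `map_right`,
`map_left`, `map_assoc`, `map_assoc_inv`, `map_braid`, `mt_ext`, `mt_span` (`N180/NCD/Nat.lean`), `CK_comp`,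
`exists_right`, `exists_left` (`N180/NCD/Ops.lean`), `elt_basis` (`N180/NCD/Fam.lean`), `bt_tp`
(`N64/AF/P1.lean`), `exists_tau`, `tr_eq_zero_iff`, `st_comm` (`N64/AF/A1.lean`), `str_ptr`, `ptr_comp`
(`N64/AF/A2.lean`), `finrank_ext`, `isCat_CK` (`N64/AF/Ba.lean`), `nr_congr_left`, `nr_congr_right`
(`N64/AF/A3.lean`), `exists_tp_iso` (`N64/AF/E1.lean`).
-/

set_option autoImplicit false

namespace Pool.Agent.L0h13.NC

universe u v w t

open CategoryTheory MonoidalCategory Module Equiv
open Pool.Agent.L0h13.SD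
open Pool.Agent.Y112.SR Pool.Agent.Y112.KD Pool.Agent.N64.AF Pool.Agent.N180.NCD

section defs

variable {C : Type u} [Category.{v} C] [Preadditive C] [MonoidalCategory C] [SymmetricCategory C]
  {K : Type w} [Field K] (R : SuperRealisation C K)

/-- The numerically trivial combinations of realisations of endomorphisms. -/
noncomputable def radC (Y : C) : Submodule K (Module.End K (R.H.obj Y)) where
  carrier := {φ | φ ∈ CK R Y Y ∧ ∀ ψ ∈ CK R Y Y,
    LinearMap.trace K (R.H.obj Y) ((R.par Y).hom ∘ₗ (φ ∘ₗ ψ)) = 0}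
  zero_mem' := ⟨Submodule.zero_mem _, fun ψ _ => by
    rw [LinearMap.zero_comp, LinearMap.comp_zero, map_zero]⟩
  add_mem' := fun {x y} hx hy => ⟨Submodule.add_mem _ hx.1 hy.1, fun ψ hψ => by
    rw [LinearMap.add_comp, LinearMap.comp_add, map_add, hx.2 ψ hψ, hy.2 ψ hψ, add_zero]⟩
  smul_mem' := fun c x hx => ⟨Submodule.smul_mem _ _ hx.1, fun ψ hψ => by
    rw [LinearMap.smul_comp, LinearMap.comp_smul, map_smul, hx.2 ψ hψ, smul_zero]⟩

/-- A basis of even and odd elements; the first `m` are even. -/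
def IsHB (T : C) (m : ℕ) {r : ℕ} (e : Basis (Fin r) K (R.H.obj T)) : Prop :=
  ∀ j, (R.par T).hom (e j) = (-1 : K) ^ par m j • e j

end defs

/-- CHB. There is a homogeneous basis. -/
def S_CHB : Prop := ∀ (C : Type u) [Category.{v} C] [Preadditive C] [MonoidalCategory C]
  [SymmetricCategory C] (K : Type w) [Field K] [CharZero K] (R : SuperRealisation C K) (T : C),
  ∃ (m n : ℕ) (e : Basis (Fin (m + n)) K (R.H.obj T)), IsHB R T m e

/-- CBS. The basis of words (`elt_basis` and the dimension `bt_tp`). -/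
def S_CBS : Prop := ∀ (C : Type u) [Category.{v} C] [Preadditive C] [MonoidalCategory C]
  [MonoidalPreadditive C] [SymmetricCategory C] [RightRigidCategory C]
  (K : Type w) [Field K] (R : SuperRealisation C K) (T : C) (r : ℕ)
  (e : Basis (Fin r) K (R.H.obj T)) (N : ℕ),
  ∃ B : Basis (Fin N → Fin r) K (R.H.obj (tp T N)), ∀ w, B w = elt R T N fun i => e (w i)

/-- CPR. The parity of words. -/
def S_CPR : Prop := ∀ (C : Type u) [Category.{v} C] [Preadditive C] [MonoidalCategory C]
  [SymmetricCategory C] (K : Type w) [Field K] (R : SuperRealisation C K) (T : C) (m r : ℕ)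
  (e : Basis (Fin r) K (R.H.obj T)), IsHB R T m e → ∀ (N : ℕ) (w : Fin N → Fin r),
  (R.par (tp T N)).hom (elt R T N fun i => e (w i)) = sgw K m w • elt R T N fun i => e (w i)

/-- CSW. Exchanges of neighbouring factors: `sw` (`Y112/KD/Swap.lean`) for the last two factors,
`f ▷ T` for the others. Compare `exists_swap2`, `exists_adj` in `N180/NCD/Ops.lean`. -/
def S_CSW : Prop := ∀ (C : Type u) [Category.{v} C] [Preadditive C] [MonoidalCategory C]
  [SymmetricCategory C] (K : Type w) [Field K] [CharZero K] (R : SuperRealisation C K) (T : C)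
  (m r : ℕ) (e : Basis (Fin r) K (R.H.obj T)), IsHB R T m e → ∀ (N : ℕ) (i : Fin N),
  ∃ f : tp T (N + 1) ⟶ tp T (N + 1), ∀ w : Fin (N + 1) → Fin r,
    (R.H.map f).hom (elt R T (N + 1) fun j => e (w j)) =
      (-1 : K) ^ (par m (w i.castSucc) * par m (w i.succ)) •
        elt R T (N + 1) fun j => e (w (swap i.castSucc i.succ j))

/-- CRR. External products of numerically trivial operators with the identity are numerically trivial.
Proof: by linearity it is enough to take `ψ = R.H.map g`, `g : Y ⊗ Q ⟶ Y ⊗ Q`; for `φ` a combination of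
`R.H.map f` the trace in question is the one of `φ` composed with the realisation of the partial trace of
`g` (`str_ptr` and `ptr_comp`: `ptr ((f ▷ Q) ≫ g) = f ≫ ptr g`; `φ'` is determined by `φ`, `mt_ext`). For the
second part conjugate with the symmetry, or use the first. -/
def S_CRR : Prop := ∀ (C : Type u) [Category.{v} C] [Preadditive C] [MonoidalCategory C]
  [MonoidalPreadditive C] [SymmetricCategory C] [RightRigidCategory C]
  (Λ : Type t) [Field Λ] [CharZero Λ] [Linear Λ C] [MonoidalLinear Λ C]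
  (K : Type w) [Field K] [Algebra Λ K] (R : SuperRealisation C K), IsReal Λ R → ∀ (Y Q : C)
  (φ : Module.End K (R.H.obj Y)), φ ∈ radC R Y →
  (∀ φ' ∈ CK R (Y ⊗ Q) (Y ⊗ Q), (∀ x y, φ' (mt R x y) = mt R (φ x) y) → φ' ∈ radC R (Y ⊗ Q)) ∧
  ∀ φ' ∈ CK R (Q ⊗ Y) (Q ⊗ Y), (∀ x y, φ' (mt R x y) = mt R x (φ y)) → φ' ∈ radC R (Q ⊗ Y)

/-- CRK. Extension of scalars: `finrank_ext` with `ψ g = τ (· ≫ g)`. Compare `nr_eq_nd` in
`N64/AF/Ba.lean`. -/
def S_CRK : Prop := ∀ (C : Type u) [Category.{v} C] [Preadditive C] [MonoidalCategory C]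
  [MonoidalPreadditive C] [SymmetricCategory C] [RightRigidCategory C]
  (Λ : Type t) [Field Λ] [CharZero Λ] [Linear Λ C] [MonoidalLinear Λ C]
  (K : Type w) [Field K] [Algebra Λ K] (R : SuperRealisation C K), IsReal Λ R → ∀ (Y : C),
  nr Λ (𝟙 Y) (𝟙 Y) = finrank K ((CK R Y Y).map (radC R Y).mkQ)

/-- CFM. The family of operators on words given by an object. Hypotheses S_CBS, S_CPR, S_CSW, S_CRR and
S_EPS, S_ADJ, and the first part of S_WRD. `A N` is the image of `CK R (tp T N) (tp T N)` under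
`LinearEquiv.conj (B N).equivFun` for the basis `B N` of CBS. `act σ` for adjacent transpositions is given
by CSW and ADJ, and these generate (`Equiv.Perm.mclosure_swap_castSucc_succ`, `actHom` in
`SD/GeoD.lean`). `extW`, `lstW`: by `exists_right`, `exists_left` (`tp T 1 = 𝟙 ⊗ T`: conjugate with the
realisation of `λ_ T`, `map_lunit`). The supertrace `strW` is the trace of `par ∘ φ` by CPR. -/
def S_CFM : Prop := ∀ (C : Type u) [Category.{v} C] [Preadditive C] [MonoidalCategory C]
  [MonoidalPreadditive C] [SymmetricCategory C] [RightRigidCategory C]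
  (Λ : Type t) [Field Λ] [CharZero Λ] [Linear Λ C] [MonoidalLinear Λ C]
  (K : Type w) [Field K] [Algebra Λ K] (R : SuperRealisation C K), IsReal Λ R → ∀ (T : C) (m r : ℕ)
  (e : Basis (Fin r) K (R.H.obj T)), IsHB R T m e →
  ∃ F : Fam K m r, ∀ N : ℕ,
    F.rk N = finrank K ((CK R (tp T N) (tp T N)).map (radC R (tp T N)).mkQ) ∧
    ((∀ a ∈ F.rad N, IsNilpotent a) ↔ ∀ φ ∈ radC R (tp T N), IsNilpotent φ)

/-- CTP. Powers of powers; and the first power. -/
def S_CTP : Prop := ∀ (C : Type u) [Category.{v} C] [Preadditive C] [MonoidalCategory C]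
  [MonoidalPreadditive C] [SymmetricCategory C] [RightRigidCategory C]
  (Λ : Type t) [Field Λ] [CharZero Λ] [Linear Λ C] [MonoidalLinear Λ C]
  (K : Type w) [Field K] [Algebra Λ K] (R : SuperRealisation C K), IsReal Λ R → ∀ (T : C),
  (∀ M k : ℕ, nr Λ (𝟙 (tp (tp T M) k)) (𝟙 (tp (tp T M) k)) =
    nr Λ (𝟙 (tp T (M * k))) (𝟙 (tp T (M * k)))) ∧
  ((∀ φ ∈ radC R (tp T 1), IsNilpotent φ) → ∀ φ ∈ radC R T, IsNilpotent φ)

end Pool.Agent.L0h13.NC
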